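import Pool.Agent.Results.MP_94c136_al.OutNotCompact

/-!
# A discrete infinite subgroup of the outer automorphism group of an oligomorphic group

For the oligomorphic group `GG` of the starting file, twisting by the continuous characters
trivial on the centre embeds the direct sum of countably many copies of `ℤ/2` in `Out(GG)`, in
such a way that every point of `Out(GG)` has an open neighbourhood meeting the image in at most
one point.
-/

set_option autoImplicit false

namespace Pool.Agent.Y136.OutSum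

open Equiv Pool.Agent.Results.MP_94c136_al.OutNotCompact

/-- the sign character in degree `n + 1` -/
noncomputable def sgn (n : ℕ) : GG →* ℤˣ where
  toFun g := eps (n + 1) g
  map_one' := eps_one _
  map_mul' g h := eps_mul g.2 h.2 _

/-- the central elements as elements of `GG` -/
def tauG (e : ℤˣ) : GG := ⟨tau e, tau_mem e⟩

lemma tauG_mul (e e' : ℤˣ) : tauG (e * e') = tauG e * tauG e' := Subtype.ext (tau_mul e e')

lemma tauG_one : tauG 1 = 1 := Subtype.ext (by simp [tauG, tau])

lemma tauG_comm (g : GG) (e : ℤˣ) : tauG e * g = g * tauG e := Subtype.ext (tau_comm g.2 e)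

/-- Characters that are trivial on the centre and depend on finitely many coordinates. -/
def X : Subgroup (GG →* ℤˣ) where
  carrier := {χ | (∀ e, χ (tauG e) = 1) ∧
    ∃ F : Finset ℕ, ∀ g h : GG, (∀ x ∈ F, (h : Perm ℕ) x = (g : Perm ℕ) x) → χ h = χ g}
  one_mem' := ⟨fun _ => rfl, ∅, fun _ _ _ => rfl⟩
  mul_mem' := by
    rintro χ χ' ⟨h1, F, h2⟩ ⟨h1', F', h2'⟩
    refine ⟨fun e => by rw [MonoidHom.mul_apply, h1, h1', one_mul], F ∪ F', fun g h hh => ?_⟩
    rw [MonoidHom.mul_apply, MonoidHom.mul_apply,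
      h2 g h fun x hx => hh x (Finset.mem_union_left _ hx),
      h2' g h fun x hx => hh x (Finset.mem_union_right _ hx)]
  inv_mem' := by
    rintro χ ⟨h1, F, h2⟩
    refine ⟨fun e => by rw [MonoidHom.inv_apply, h1, inv_one], F, fun g h hh => ?_⟩
    rw [MonoidHom.inv_apply, MonoidHom.inv_apply, h2 g h hh]

lemma sgn_mem (n : ℕ) : sgn n ∈ X :=
  ⟨fun e => eps_tau (n + 1) e, B0 (n + 1), fun _ _ hh => eps_congr (n + 1) (subset_refl _) hh⟩

/-- the twist by a character -/
def twist (χ : X) : MulAut GG where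
  toFun g := g * tauG (χ.1 g)
  invFun g := g * tauG (χ.1 g)
  left_inv g := by
    change g * tauG (χ.1 g) * tauG (χ.1 (g * tauG (χ.1 g))) = g
    rw [map_mul, χ.2.1, mul_one, mul_assoc, ← tauG_mul, units_mul_self, tauG_one, mul_one]
  right_inv g := by
    change g * tauG (χ.1 g) * tauG (χ.1 (g * tauG (χ.1 g))) = g
    rw [map_mul, χ.2.1, mul_one, mul_assoc, ← tauG_mul, units_mul_self, tauG_one, mul_one]
  map_mul' g h := by
    rw [map_mul, tauG_mul]
    calc g * h * (tauG (χ.1 g) * tauG (χ.1 h))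
        = g * (h * tauG (χ.1 g)) * tauG (χ.1 h) := by group
      _ = g * (tauG (χ.1 g) * h) * tauG (χ.1 h) := by rw [tauG_comm]
      _ = g * tauG (χ.1 g) * (h * tauG (χ.1 h)) := by group

lemma twist_apply (χ : X) (g : GG) : twist χ g = g * tauG (χ.1 g) := rfl

lemma twist_symm (χ : X) : (twist χ).symm = twist χ := by
  ext g; rfl

lemma twist_continuous (χ : X) : Continuous (twist χ) := by
  obtain ⟨F, hF⟩ := χ.2.2
  apply continuous_induced_rng.mpr
  apply continuous_induced_rng.mpr
  apply continuous_pi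
  intro x
  rw [continuous_discrete_rng]
  intro m
  apply isOpen_of_local'
  intro g hg
  refine ⟨F ∪ {x, z x}, fun h hh => ?_⟩
  have he : χ.1 h = χ.1 g := hF g h fun y hy => hh y (Finset.mem_union_left _ hy)
  have hx : ∀ e : ℤˣ, (h : Perm ℕ) (tau e x) = (g : Perm ℕ) (tau e x) := by
    intro e
    apply hh
    rw [Finset.mem_union]
    right
    unfold tau
    split_ifs <;> simp
  change (g : Perm ℕ) (tau (χ.1 g) x) = m at hg
  change (h : Perm ℕ) (tau (χ.1 h) x) = m
  rw [he, hx, hg]

lemma twist_mem (χ : X) : twist χ ∈ TopAut GG := ⟨twist_continuous χ, by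
  rw [twist_symm]; exact twist_continuous χ⟩

/-- twisting as a homomorphism -/
def twistHom : X →* TopAut GG where
  toFun χ := ⟨twist χ, twist_mem χ⟩
  map_one' := by
    apply Subtype.ext
    ext1 g
    change g * tauG 1 = g
    rw [tauG_one, mul_one]
  map_mul' χ χ' := by
    apply Subtype.ext
    ext1 g
    change g * tauG (χ.1 g * χ'.1 g) = (g * tauG (χ'.1 g)) * tauG (χ.1 (g * tauG (χ'.1 g)))
    rw [map_mul, χ.2.1, mul_one, mul_comm (χ.1 g), tauG_mul, mul_assoc]

/-- the direct sum of countably many copies of `ℤ/2`, mapped to characters -/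
noncomputable def char (f : ℕ →₀ ZMod 2) : GG →* ℤˣ := f.prod fun n c => sgn n ^ c.val

lemma sgn_sq (n : ℕ) : sgn n * sgn n = 1 := by
  ext1 g
  exact units_mul_self _

lemma zmod_two (c : ZMod 2) : c = 0 ∨ c = 1 := by
  revert c; decide

lemma char_add (f g : ℕ →₀ ZMod 2) : char (f + g) = char f * char g := by
  apply Finsupp.prod_add_index'
  · intro n; simp
  · intro n a b
    rcases zmod_two a with rfl | rfl <;> rcases zmod_two b with rfl | rfl
    · simp
    · simp
    · simp
    · have h1 : ((1 : ZMod 2) + 1).val = 0 := by decide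
      have h2 : (1 : ZMod 2).val = 1 := by decide
      rw [h1, h2, pow_zero, pow_one, sgn_sq]

lemma char_mem (f : ℕ →₀ ZMod 2) : char f ∈ X :=
  Subgroup.prod_mem _ fun n _ => Subgroup.pow_mem _ (sgn_mem n) _

/-- the homomorphism from the direct sum to the outer automorphism group -/
noncomputable def phi : Multiplicative (ℕ →₀ ZMod 2) →* OutAut GG :=
  (QuotientGroup.mk' (InnAut GG)).comp (twistHom.comp
    { toFun := fun f => ⟨char f.toAdd, char_mem _⟩
      map_one' := Subtype.ext (Finsupp.prod_zero_index (h := fun n c => sgn n ^ (c : ZMod 2).val))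
      map_mul' := fun _ _ => Subtype.ext (char_add _ _) })

/-- an element of the group fixing `0` and with sign `-1` exactly in degree `n + 1` -/
lemma exists_elem (n : ℕ) : ∃ g : GG, (g : Perm ℕ) 0 = 0 ∧ (g : Perm ℕ) 1 = 1 ∧
    ∀ k, sgn k g = if k = n then -1 else 1 := by
  have hPI : IsPI (fun k => if k = n + 1 then -1 else 1) {(0, 0), (1, 1)} := by
    refine ⟨by simp, by simp, ?_, ?_⟩
    · intro p hp q hq
      simp only [Finset.mem_insert, Finset.mem_singleton] at hp hq
      rcases hp with rfl | rfl <;> rcases hq with rfl | rfl <;> simp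
    · intro S hS hSne hS2
      obtain ⟨p, hp⟩ := hSne
      have h1 := hS2 p hp
      have h2 := hS hp
      simp only [Finset.mem_insert, Finset.mem_singleton] at h2
      rcases h2 with rfl | rfl
      · simp only at h1; omega
      · simp only at h1; omega
  obtain ⟨g, -, g0, g1, g2⟩ := exists_perm hPI
  have hgG : g ∈ GG := mem_GG_of (ε := fun k => if k = n + 1 then -1 else 1) g0 g1 g2
  refine ⟨⟨g, hgG⟩, g0, g1, fun k => ?_⟩
  change eps (k + 1) g = _
  have : eps (k + 1) g = if k + 1 = n + 1 then -1 else 1 := by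
    apply eps_eq (k + 1) _ (B0 (k + 1)) (B0_card _) (B0_two _) hgG
    rw [g2 _ (Finset.card_pos.mp (by rw [B0_card]; omega)) (B0_two _), B0_card]
  rw [this]
  simp only [Nat.add_right_cancel_iff]

lemma char_elem (f : ℕ →₀ ZMod 2) {n : ℕ} {g : GG} (hg : ∀ k, sgn k g = if k = n then -1 else 1) :
    char f g = (-1) ^ (f n).val := by
  have h1 : char f g = f.prod fun k c => (sgn k ^ c.val) g := by
    rw [char, Finsupp.prod, Finsupp.prod, MonoidHom.finsetProd_apply]
  rw [h1]
  simp only [MonoidHom.pow_apply, hg]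
  rw [Finsupp.prod, Finset.prod_eq_single n]
  · rw [if_pos rfl]
  · intro k _ hk
    rw [if_neg hk, one_pow]
  · intro hn
    rw [Finsupp.notMem_support_iff.1 hn]
    simp

/-- The map `α ↦ α(U)` on outer automorphisms is well defined and locally constant. -/
lemma exists_Psi : ∃ Ψ : OutAut GG → Set GG,
    (∀ α : TopAut GG, Ψ (QuotientGroup.mk α) = (fun x => (α : MulAut GG) x) '' (U : Set GG)) ∧
    ∀ q, IsOpen (Ψ ⁻¹' {Ψ q}) := by
  let _ : TopologicalSpace (Set GG) := ⊥
  have _ : DiscreteTopology (Set GG) := ⟨rfl⟩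
  let ψ : TopAut GG → Set GG := fun α => (fun x => (α : MulAut GG) x) '' (U : Set GG)
  have hψc : Continuous ψ := by
    rw [continuous_discrete_rng]
    intro C
    by_cases hC : IsOpenCoset C
    · apply TopologicalSpace.isOpen_generateFrom_of_mem
      refine ⟨U, C, ⟨U, 1, U_open, ?_⟩, hC, rfl⟩
      ext x; simp
    · have : ψ ⁻¹' {C} = ∅ := by
        ext α
        simp only [Set.mem_preimage, Set.mem_singleton_iff, Set.mem_empty_iff_false, iff_false]
        intro h
        exact hC (isOpenCoset_image α h.symm)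
      rw [this]; exact isOpen_empty
  have hψ : ∀ α β : TopAut GG, QuotientGroup.leftRel (InnAut GG) α β → ψ α = ψ β := by
    intro α β hαβ
    rw [QuotientGroup.leftRel_apply] at hαβ
    obtain ⟨g, hg⟩ := hαβ
    have h1 : ∀ x, (β : MulAut GG) x = (α : MulAut GG) (g * x * g⁻¹) := by
      intro x
      have h2 : (MulAut.conj g : MulAut GG) x = ((α⁻¹ * β : TopAut GG) : MulAut GG) x := by
        rw [hg]; rfl
      rw [MulAut.conj_apply] at h2
      rw [h2]
      change _ = (α : MulAut GG) ((α : MulAut GG).symm ((β : MulAut GG) x))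
      rw [MulEquiv.apply_symm_apply]
    ext y
    constructor
    · rintro ⟨u, hu, rfl⟩
      refine ⟨g⁻¹ * u * g, ?_, ?_⟩
      · have := U_conj g⁻¹ u hu
        rwa [inv_inv] at this
      · simp only
        rw [h1]
        congr 1
        group
    · rintro ⟨u, hu, rfl⟩
      refine ⟨g * u * g⁻¹, U_conj g u hu, ?_⟩
      simp only
      rw [h1]
  refine ⟨fun q => Quotient.liftOn' q ψ hψ, fun α => rfl, fun q => ?_⟩
  have hΨ : Continuous (fun q : OutAut GG => Quotient.liftOn' q ψ hψ) := hψc.quotient_liftOn' hψ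
  exact (isOpen_discrete _).preimage hΨ

lemma mem_twist_image (χ : X) {g : GG} (h0 : (g : Perm ℕ) 0 = 0) (h1 : (g : Perm ℕ) 1 = 1) :
    g ∈ (fun x => twist χ x) '' (U : Set GG) ↔ χ.1 g = 1 := by
  have hmem : g ∈ (fun x => twist χ x) '' (U : Set GG) ↔ twist χ g ∈ U := by
    constructor
    · rintro ⟨y, hy, rfl⟩
      have : twist χ (twist χ y) = y := (twist χ).left_inv y
      simp only
      rw [this]; exact hy
    · intro hy
      exact ⟨twist χ g, hy, (twist χ).left_inv g⟩
  rw [hmem]
  change (g : Perm ℕ) (tau (χ.1 g) 0) = 0 ↔ _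
  rcases Int.units_eq_one_or (χ.1 g) with h | h
  · rw [h]
    simp [tau, h0]
  · rw [h]
    have : tau (-1) 0 = 1 := by
      simp only [tau]
      rw [if_neg (by decide), z_zero]
    rw [this, h1]
    constructor
    · intro h'; omega
    · intro h'; exact absurd h' (by decide)

theorem main : IsOligomorphic GG ∧ ∃ φ : Multiplicative (ℕ →₀ ZMod 2) →* OutAut GG,
    Function.Injective φ ∧
    (∀ q : OutAut GG, ∃ V : Set (OutAut GG), IsOpen V ∧ q ∈ V ∧
      (Set.range φ ∩ V).Subsingleton) ∧ ¬ CompactSpace (OutAut GG) := by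
  obtain ⟨Ψ, hΨ1, hΨ2⟩ := exists_Psi
  have hinj : Function.Injective fun f => Ψ (phi f) := by
    intro f f' hff
    by_contra hne
    have hne' : ∃ n, f.toAdd n ≠ f'.toAdd n := by
      by_contra h
      push Not at h
      exact hne (Multiplicative.toAdd.injective (Finsupp.ext h))
    obtain ⟨n, hn⟩ := hne'
    obtain ⟨g, g0, g1, hg⟩ := exists_elem n
    have h1 : ∀ f : Multiplicative (ℕ →₀ ZMod 2), g ∈ Ψ (phi f) ↔ char f.toAdd g = 1 := by
      intro f
      have h2 : Ψ (phi f) = (fun x => twist ⟨char f.toAdd, char_mem _⟩ x) '' (U : Set GG) :=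
        hΨ1 (twistHom ⟨char f.toAdd, char_mem f.toAdd⟩)
      rw [h2]
      exact mem_twist_image _ g0 g1
    have h3 : char f.toAdd g = 1 ↔ char f'.toAdd g = 1 := by
      rw [← h1, ← h1]
      have : Ψ (phi f) = Ψ (phi f') := hff
      rw [this]
    rw [char_elem _ hg, char_elem _ hg] at h3
    have h4 : (1 : ZMod 2).val = 1 := by decide
    have h5 : (0 : ZMod 2).val = 0 := by decide
    rcases zmod_two (f.toAdd n) with h | h <;> rcases zmod_two (f'.toAdd n) with h' | h' <;>
      rw [h, h'] at h3 hn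
    · exact hn rfl
    · rw [h4, h5] at h3
      exact absurd (h3.1 (by decide)) (by decide)
    · rw [h4, h5] at h3
      exact absurd (h3.2 (by decide)) (by decide)
    · exact hn rfl
  refine ⟨GG_oligomorphic, phi, fun f f' h => hinj (congrArg Ψ h), fun q => ?_, not_compact⟩
  refine ⟨Ψ ⁻¹' {Ψ q}, hΨ2 q, rfl, ?_⟩
  rintro _ ⟨⟨f, rfl⟩, hf⟩ _ ⟨⟨f', rfl⟩, hf'⟩
  have h1 : Ψ (phi f) = Ψ q := hf
  have h2 : Ψ (phi f') = Ψ q := hf'
  rw [hinj (h1.trans h2.symm)]

end Pool.Agent.Y136.OutSum
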